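import Pool.Agent.V1186.Chee.Plane

set_option autoImplicit false

/-!
Area estimates.
-/

namespace Pool.Agent.V1186.Chee

open MeasureTheory Set Metric Filter Topology
open scoped ENNReal NNReal Pointwise

theorem gw_cont (a : ℝ) : Continuous (gw a) := by unfold gw; fun_prop

theorem trap {a x0 x1 y0 y1 : ℝ} (hx : x0 < x1) (hy0 : 0 ≤ y0) (hy1 : 0 ≤ y1)
    (h0 : x0 ^ 2 + y0 ^ 2 = 1) (h1 : x1 ^ 2 + y1 ^ 2 = 1) (ha0 : y0 ≤ a) (ha1 : y1 ≤ a) :
    (x1 - x0) * (y0 + y1) / 2 ≤ ∫ x in x0..x1, gw a x := by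
  have hd : 0 < x1 - x0 := by linarith
  set s := (y1 - y0) / (x1 - x0) with hs
  have hsd : s * (x1 - x0) = y1 - y0 := by rw [hs]; field_simp
  have hle : ∀ x ∈ Icc x0 x1, (y0 - s * x0) + s * x ≤ gw a x := by
    intro x hx'
    have e : (y0 - s * x0) + s * x = ((x1 - x) * y0 + (x - x0) * y1) / (x1 - x0) := by
      rw [hs]; field_simp; ring
    have hn : 0 ≤ (y0 - s * x0) + s * x := by
      rw [e]
      have := sub_nonneg.2 hx'.1
      have := sub_nonneg.2 hx'.2
      positivity
    apply le_min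
    · rw [e, div_le_iff₀ hd]
      have a1 := mul_le_mul_of_nonneg_left ha0 (sub_nonneg.2 hx'.2)
      have a2 := mul_le_mul_of_nonneg_left ha1 (sub_nonneg.2 hx'.1)
      linarith
    · apply Real.le_sqrt_of_sq_le
      have hq : ((y0 - s * x0) + s * x) ^ 2 + x ^ 2 - 1 = (1 + s ^ 2) * ((x - x0) * (x - x1)) := by
        have k1 : (y0 - s * x0) + s * x = y0 + s * (x - x0) := by ring
        rw [k1]
        have k2 : y1 = y0 + s * (x1 - x0) := by linarith
        have k3 : x1 ^ 2 + (y0 + s * (x1 - x0)) ^ 2 = x0 ^ 2 + y0 ^ 2 := by rw [← k2, h1, h0]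
        have k4 : (x1 - x0) * (x1 + x0 + 2 * s * y0 + s ^ 2 * (x1 - x0)) = 0 := by linarith
        have k5 : x1 + x0 + 2 * s * y0 + s ^ 2 * (x1 - x0) = 0 := by
          rcases mul_eq_zero.1 k4 with h | h
          · exact absurd h hd.ne'
          · exact h
        have k6 : 2 * s * y0 = -(x1 + x0) - s ^ 2 * (x1 - x0) := by linarith
        have k7 : (y0 + s * (x - x0)) ^ 2 + x ^ 2 - 1 =
            (x0 ^ 2 + y0 ^ 2 - 1) + (2 * s * y0) * (x - x0) + s ^ 2 * (x - x0) ^ 2 + x ^ 2 - x0 ^ 2 := by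
          ring
        rw [k7, h0, k6]
        ring
      have hp : (x - x0) * (x - x1) ≤ 0 :=
        mul_nonpos_of_nonneg_of_nonpos (sub_nonneg.2 hx'.1) (sub_nonpos.2 hx'.2)
      have : (1 + s ^ 2) * ((x - x0) * (x - x1)) ≤ 0 :=
        mul_nonpos_of_nonneg_of_nonpos (by positivity) hp
      linarith
  have hint : ∫ x in x0..x1, ((y0 - s * x0) + s * x) = (x1 - x0) * (y0 + y1) / 2 := by
    have i1 : IntervalIntegrable (fun _ : ℝ => y0 - s * x0) volume x0 x1 := intervalIntegrable_const
    have i2 : IntervalIntegrable (fun x : ℝ => s * x) volume x0 x1 :=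
      (by fun_prop : Continuous fun x : ℝ => s * x).intervalIntegrable _ _
    rw [intervalIntegral.integral_add i1 i2,
      intervalIntegral.integral_const, intervalIntegral.integral_const_mul, integral_id, smul_eq_mul]
    have k2 : y1 = y0 + s * (x1 - x0) := by linarith
    rw [k2]; ring
  rw [← hint]
  apply intervalIntegral.integral_mono_on hx.le
  · exact (by fun_prop : Continuous fun x => (y0 - s * x0) + s * x).intervalIntegrable _ _
  · exact (gw_cont a).intervalIntegrable _ _
  · exact hle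

theorem gw_int : (2978:ℝ) / 1000 ≤ 4 * ∫ x in (0:ℝ)..(12/13), gw (12/13) x := by
  have ii : ∀ u v : ℝ, IntervalIntegrable (gw (12/13)) volume u v := fun u v =>
    (gw_cont _).intervalIntegrable _ _
  have h0 : (5/13 : ℝ) * (12/13) ≤ ∫ x in (0:ℝ)..(5/13), gw (12/13) x := by
    have e : ∫ _x in (0:ℝ)..(5/13), (12/13 : ℝ) = (5/13 : ℝ) * (12/13) := by
      rw [intervalIntegral.integral_const, smul_eq_mul, sub_zero]
    rw [← e]
    apply intervalIntegral.integral_mono_on (by norm_num) (by simp) (ii _ _)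
    intro x hx
    apply le_min le_rfl
    apply Real.le_sqrt_of_sq_le
    nlinarith [hx.1, hx.2]
  have h1 := trap (a := 12/13) (x0 := 5/13) (x1 := 8/17) (y0 := 12/13) (y1 := 15/17)
    (by norm_num) (by norm_num) (by norm_num) (by norm_num) (by norm_num) (by norm_num) (by norm_num)
  have h2 := trap (a := 12/13) (x0 := 8/17) (x1 := 3/5) (y0 := 15/17) (y1 := 4/5)
    (by norm_num) (by norm_num) (by norm_num) (by norm_num) (by norm_num) (by norm_num) (by norm_num)
  have h3 := trap (a := 12/13) (x0 := 3/5) (x1 := 20/29) (y0 := 4/5) (y1 := 21/29)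
    (by norm_num) (by norm_num) (by norm_num) (by norm_num) (by norm_num) (by norm_num) (by norm_num)
  have h4 := trap (a := 12/13) (x0 := 20/29) (x1 := 21/29) (y0 := 21/29) (y1 := 20/29)
    (by norm_num) (by norm_num) (by norm_num) (by norm_num) (by norm_num) (by norm_num) (by norm_num)
  have h5 := trap (a := 12/13) (x0 := 21/29) (x1 := 4/5) (y0 := 20/29) (y1 := 3/5)
    (by norm_num) (by norm_num) (by norm_num) (by norm_num) (by norm_num) (by norm_num) (by norm_num)
  have h6 := trap (a := 12/13) (x0 := 4/5) (x1 := 15/17) (y0 := 3/5) (y1 := 8/17)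
    (by norm_num) (by norm_num) (by norm_num) (by norm_num) (by norm_num) (by norm_num) (by norm_num)
  have h7 := trap (a := 12/13) (x0 := 15/17) (x1 := 12/13) (y0 := 8/17) (y1 := 5/13)
    (by norm_num) (by norm_num) (by norm_num) (by norm_num) (by norm_num) (by norm_num) (by norm_num)
  have e1 := intervalIntegral.integral_add_adjacent_intervals (ii 0 (5/13)) (ii (5/13) (8/17))
  have e2 := intervalIntegral.integral_add_adjacent_intervals (ii 0 (8/17)) (ii (8/17) (3/5))
  have e3 := intervalIntegral.integral_add_adjacent_intervals (ii 0 (3/5)) (ii (3/5) (20/29))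
  have e4 := intervalIntegral.integral_add_adjacent_intervals (ii 0 (20/29)) (ii (20/29) (21/29))
  have e5 := intervalIntegral.integral_add_adjacent_intervals (ii 0 (21/29)) (ii (21/29) (4/5))
  have e6 := intervalIntegral.integral_add_adjacent_intervals (ii 0 (4/5)) (ii (4/5) (15/17))
  have e7 := intervalIntegral.integral_add_adjacent_intervals (ii 0 (15/17)) (ii (15/17) (12/13))
  rw [← e7, ← e6, ← e5, ← e4, ← e3, ← e2, ← e1]
  norm_num at h0 h1 h2 h3 h4 h5 h6 h7 ⊢
  linarith

theorem area_Ea : ENNReal.ofReal (2978 / 1000) ≤ volume (Ea (12/13)) := by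
  have ha : (0:ℝ) < 12/13 := by norm_num
  rw [← emb_mp.measure_preimage (Ea_open _).measurableSet.nullMeasurableSet, emb_pre,
    Measure.volume_eq_prod, Measure.prod_apply (Sa_open _).measurableSet]
  have h1 : ∀ x : ℝ, (Ioo (-(12/13:ℝ)) (12/13)).indicator (fun x => ENNReal.ofReal (2 * gw (12/13) x)) x ≤
      volume (Prod.mk x ⁻¹' Sa (12/13)) := by
    intro x
    by_cases hx : |x| < 12/13
    · have hxI : x ∈ Ioo (-(12/13:ℝ)) (12/13) := abs_lt.1 hx
      rw [indicator_of_mem hxI]
      have e : Prod.mk x ⁻¹' Sa (12/13) = Ioo (-gw (12/13) x) (gw (12/13) x) := by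
        ext y; exact slice_iff hx
      rw [e, Real.volume_Ioo]
      apply ENNReal.ofReal_le_ofReal
      linarith
    · have hxI : x ∉ Ioo (-(12/13:ℝ)) (12/13) := fun h => hx (abs_lt.2 h)
      rw [indicator_of_notMem hxI]
      exact zero_le
  refine le_trans ?_ (lintegral_mono h1)
  rw [lintegral_indicator measurableSet_Ioo, ← ofReal_integral_eq_lintegral_ofReal]
  · apply ENNReal.ofReal_le_ofReal
    rw [← integral_Ioc_eq_integral_Ioo, ← intervalIntegral.integral_of_le (by norm_num),
      intervalIntegral.integral_const_mul]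
    have ii : ∀ u v : ℝ, IntervalIntegrable (gw (12/13)) volume u v := fun u v =>
      (gw_cont _).intervalIntegrable _ _
    rw [← intervalIntegral.integral_add_adjacent_intervals (ii (-(12/13)) 0) (ii 0 (12/13))]
    have hneg : ∫ x in (-(12/13:ℝ))..0, gw (12/13) x = ∫ x in (0:ℝ)..(12/13), gw (12/13) x := by
      have h2 := intervalIntegral.integral_comp_neg (a := (0:ℝ)) (b := 12/13) (gw (12/13))
      rw [neg_zero] at h2
      rw [← h2]
      congr 1
      ext x
      unfold gw
      rw [neg_sq]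
    rw [hneg]
    have := gw_int
    linarith
  · exact ((continuous_const.mul (gw_cont _)).integrableOn_Icc (a := -(12/13)) (b := 12/13)).mono_set Ioo_subset_Icc_self
  · refine ae_of_all _ fun x => ?_
    have : 0 ≤ gw (12/13) x := le_min ha.le (Real.sqrt_nonneg _)
    show 0 ≤ 2 * gw (12/13) x
    positivity

/-- the straightening map of the diamond -/
noncomputable def dmap : (ℝ × ℝ) →ₗ[ℝ] (ℝ × ℝ) where
  toFun p := (p.1 + p.2, p.1 - p.2)
  map_add' p q := by ext <;> simp <;> ring
  map_smul' c p := by ext <;> simp <;> ring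

theorem dmap_det : LinearMap.det dmap = -2 := by
  rw [← LinearMap.det_toMatrix (Module.Basis.finTwoProd ℝ), Matrix.det_fin_two]
  simp [LinearMap.toMatrix_apply, dmap]
  norm_num

theorem diamond (r : ℝ) (hr : 0 ≤ r) :
    volume {x : EuclideanSpace ℝ (Fin 2) | |x 0| + |x 1| ≤ r} = ENNReal.ofReal (2 * r ^ 2) := by
  have hcl : IsClosed {x : EuclideanSpace ℝ (Fin 2) | |x 0| + |x 1| ≤ r} :=
    isClosed_le ((co_cont 0).abs.add (co_cont 1).abs) continuous_const
  rw [← emb_mp.measure_preimage hcl.measurableSet.nullMeasurableSet]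
  have e : emb ⁻¹' {x : EuclideanSpace ℝ (Fin 2) | |x 0| + |x 1| ≤ r} =
      dmap ⁻¹' (Icc (-r) r ×ˢ Icc (-r) r) := by
    ext p
    show |p.1| + |p.2| ≤ r ↔ (p.1 + p.2 ∈ Icc (-r) r ∧ p.1 - p.2 ∈ Icc (-r) r)
    simp only [mem_Icc]
    constructor
    · intro h
      have := abs_nonneg p.1
      have := abs_nonneg p.2
      have := le_abs_self p.1
      have := neg_abs_le p.1
      have := le_abs_self p.2
      have := neg_abs_le p.2
      refine ⟨⟨?_, ?_⟩, ?_, ?_⟩ <;> linarith
    · rintro ⟨⟨h1, h2⟩, h3, h4⟩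
      rcases abs_cases p.1 with ⟨e1, -⟩ | ⟨e1, -⟩ <;> rcases abs_cases p.2 with ⟨e2, -⟩ | ⟨e2, -⟩ <;>
        rw [e1, e2] <;> linarith
  rw [e, Measure.addHaar_preimage_linearMap _ (by rw [dmap_det]; norm_num), dmap_det,
    Measure.volume_eq_prod, Measure.prod_prod, Real.volume_Icc, ← ENNReal.ofReal_mul (by linarith),
    ← ENNReal.ofReal_mul (abs_nonneg _)]
  congr 1
  rw [abs_of_neg (by norm_num)]
  ring

end Pool.Agent.V1186.Chee
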