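import Pool.Agent.V1186.Chee.Defs

set_option autoImplicit false

/-!
Coercivity of `J` and existence of minimizers.
-/

namespace Pool.Agent.V1186.Chee

open MeasureTheory Set Metric Filter Topology
open scoped ENNReal NNReal Pointwise RealInnerProductSpace

variable {N : ℕ}

/-- lower bound for the perimeter by one direction -/
theorem per_ge {K : Set (EuclideanSpace ℝ (Fin N))} (hK : IsAniso K)
    {v : EuclideanSpace ℝ (Fin N)} (hv : v ∈ K) {ρ : ℝ} (hρ : 0 < ρ)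
    {A : Set (EuclideanSpace ℝ (Fin N))} (hA : MeasurableSet A) (hAρ : A ⊆ ball 0 ρ) :
    ENNReal.ofReal (‖v‖ / (2 * ρ)) * volume A ≤ per K A := by
  rcases eq_or_ne v 0 with hv0 | hv0
  · rw [hv0]; simp
  have hvn : 0 < ‖v‖ := norm_pos_iff.2 hv0
  let f : ContDiffBump (0 : EuclideanSpace ℝ (Fin N)) := ⟨ρ, 2 * ρ, hρ, by linarith⟩
  let T : EuclideanSpace ℝ (Fin N) → EuclideanSpace ℝ (Fin N) :=
    fun x => (f x * (inner ℝ x v / (2 * ρ * ‖v‖))) • v
  have hin : ContDiff ℝ 1 fun x : EuclideanSpace ℝ (Fin N) => inner ℝ x v / (2 * ρ * ‖v‖) :=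
    (contDiff_id.inner ℝ contDiff_const).div_const _
  have hT : ContDiff ℝ 1 T := (f.contDiff.mul hin).smul contDiff_const
  have hc : HasCompactSupport T := by
    have h1 : HasCompactSupport (fun x => f x * (inner ℝ x v / (2 * ρ * ‖v‖))) :=
      f.hasCompactSupport.mul_right
    exact h1.smul_right
  have hTK : ∀ x, T x ∈ K := by
    intro x
    apply hK.smul_mem hv
    by_cases hx : 2 * ρ ≤ dist x 0
    · rw [f.zero_of_le_dist hx]; simp
    · push Not at hx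
      rw [dist_zero_right] at hx
      rw [abs_mul, abs_of_nonneg f.nonneg]
      have h1 : |inner ℝ x v / (2 * ρ * ‖v‖)| ≤ 1 := by
        rw [abs_div, abs_of_pos (by positivity : (0:ℝ) < 2 * ρ * ‖v‖), div_le_one (by positivity)]
        exact (abs_real_inner_le_norm x v).trans (mul_le_mul_of_nonneg_right hx.le hvn.le)
      calc f x * |inner ℝ x v / (2 * ρ * ‖v‖)| ≤ 1 * 1 :=
            mul_le_mul f.le_one h1 (abs_nonneg _) zero_le_one
        _ = 1 := one_mul 1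
  have hdiv : ∀ x ∈ A, dvg T x = ‖v‖ / (2 * ρ) := by
    intro x hx
    have hev : T =ᶠ[𝓝 x] fun x => (inner ℝ x v / (2 * ρ * ‖v‖)) • v := by
      filter_upwards [f.eventuallyEq_one_of_mem_ball (hAρ hx)] with y hy
      show (f y * (inner ℝ y v / (2 * ρ * ‖v‖))) • v = _
      rw [hy]; simp
    have hd : HasFDerivAt (fun x : EuclideanSpace ℝ (Fin N) => (inner ℝ x v / (2 * ρ * ‖v‖)) • v)
        (((2 * ρ * ‖v‖)⁻¹ • innerSL ℝ v).smulRight v) x := by
      have h1 : HasFDerivAt (fun x : EuclideanSpace ℝ (Fin N) => inner ℝ x v / (2 * ρ * ‖v‖))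
          ((2 * ρ * ‖v‖)⁻¹ • innerSL ℝ v) x := by
        have h2 : HasFDerivAt (fun x : EuclideanSpace ℝ (Fin N) => (2 * ρ * ‖v‖)⁻¹ • (innerSL ℝ v) x)
            ((2 * ρ * ‖v‖)⁻¹ • innerSL ℝ v) x :=
          ((innerSL ℝ v).hasFDerivAt (x := x)).const_smul ((2 * ρ * ‖v‖)⁻¹)
        have e : (fun x : EuclideanSpace ℝ (Fin N) => inner ℝ x v / (2 * ρ * ‖v‖)) =
            fun x => (2 * ρ * ‖v‖)⁻¹ • (innerSL ℝ v) x := by
          ext y
          rw [innerSL_apply_apply, real_inner_comm, smul_eq_mul, div_eq_inv_mul]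
        rw [e]; exact h2
      exact h1.smul_const v
    unfold dvg
    rw [hev.fderiv_eq, hd.fderiv]
    have h3 : ∀ i : Fin N, ((((2 * ρ * ‖v‖)⁻¹ • innerSL ℝ v).smulRight v)
        (EuclideanSpace.single i 1)) i = (2 * ρ * ‖v‖)⁻¹ * (v i * v i) := by
      intro i
      simp [EuclideanSpace.inner_single_right]
      ring
    rw [Finset.sum_congr rfl fun i _ => h3 i, ← Finset.mul_sum]
    have h4 : ∑ i, v i * v i = ‖v‖ ^ 2 := by
      rw [EuclideanSpace.real_norm_sq_eq]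
      exact Finset.sum_congr rfl fun i _ => (sq _).symm
    rw [h4]
    field_simp
  have hint : ∫ x in A, dvg T x = ‖v‖ / (2 * ρ) * volume.real A := by
    rw [setIntegral_congr_fun hA hdiv, setIntegral_const, smul_eq_mul, mul_comm]
  have hfin : volume A ≠ ⊤ := ((isBounded_ball.subset hAρ).measure_lt_top).ne
  have hle : ENNReal.ofReal (∫ x in A, dvg T x) ≤ per K A := by
    unfold per
    exact (le_iSup₂ (f := fun (_ : HasCompactSupport T) (_ : ∀ x, T x ∈ K) =>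
        ENNReal.ofReal (∫ x in A, dvg T x)) hc hTK).trans
      (le_iSup₂ (f := fun (T : EuclideanSpace ℝ (Fin N) → EuclideanSpace ℝ (Fin N))
        (_ : ContDiff ℝ 1 T) => ⨆ (_ : HasCompactSupport T) (_ : ∀ x, T x ∈ K),
          ENNReal.ofReal (∫ x in A, dvg T x)) _ hT)
  refine le_trans (le_of_eq ?_) hle
  rw [hint, ENNReal.ofReal_mul (by positivity), Measure.real, ENNReal.ofReal_toReal hfin]

theorem cheeger_ge {K : Set (EuclideanSpace ℝ (Fin N))} (hK : IsAniso K)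
    {v : EuclideanSpace ℝ (Fin N)} (hv : v ∈ K) {ρ : ℝ} (hρ : 0 < ρ)
    {Ω : Set (EuclideanSpace ℝ (Fin N))} (hΩ : Ω ⊆ ball 0 ρ) :
    ENNReal.ofReal (‖v‖ / (2 * ρ)) ≤ cheeger K Ω := by
  unfold cheeger
  refine le_iInf fun A => le_iInf fun hA => le_iInf fun hAΩ => le_iInf fun hA0 => ?_
  have hfin : volume A ≠ ⊤ := ((isBounded_ball.subset (hAΩ.trans hΩ)).measure_lt_top).ne
  rw [ENNReal.le_div_iff_mul_le (Or.inl hA0) (Or.inl hfin)]
  exact per_ge hK hv hρ hA (hAΩ.trans hΩ)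

/-- the polar of a thin set is large -/
theorem polar_ge {K : Set (EuclideanSpace ℝ (Fin N))} (hK : K ⊆ ball 0 1) {M : ℕ}
    {w : EuclideanSpace ℝ (Fin N)} (hw : ‖w‖ = 1) (h : ∀ y ∈ K, M * inner ℝ w y ≤ 1) :
    M * volume (ball (0 : EuclideanSpace ℝ (Fin N)) (1/4)) ≤ volume (polar K) := by
  have hsub : (⋃ j ∈ Finset.range M, ball (((j:ℝ) / 2) • w) (1/4)) ⊆ polar K := by
    intro x hx y hy
    rw [mem_iUnion₂] at hx
    obtain ⟨j, hj, hx⟩ := hx
    rw [mem_ball, dist_eq_norm] at hx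
    have hy1 : ‖y‖ < 1 := by simpa using hK hy
    have e : inner ℝ x y = (j:ℝ) / 2 * inner ℝ w y + inner ℝ (x - ((j:ℝ) / 2) • w) y := by
      rw [inner_sub_left, real_inner_smul_left]; ring
    have h2 : inner ℝ (x - ((j:ℝ) / 2) • w) y ≤ 1 / 4 := by
      refine (real_inner_le_norm _ _).trans ?_
      nlinarith [norm_nonneg (x - ((j:ℝ) / 2) • w), norm_nonneg y]
    have hjM : (j:ℝ) ≤ M := by exact_mod_cast (Finset.mem_range.1 hj).le
    have h3 : (j:ℝ) / 2 * inner ℝ w y ≤ 1 / 2 := by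
      rcases le_or_gt (inner ℝ w y) 0 with hneg | hpos
      · have : (j:ℝ) / 2 * inner ℝ w y ≤ 0 := mul_nonpos_of_nonneg_of_nonpos (by positivity) hneg
        linarith
      · have h4 := h y hy
        have h5 := mul_le_mul_of_nonneg_right hjM hpos.le
        linarith
    rw [e]; linarith
  refine le_trans (le_of_eq ?_) (measure_mono hsub)
  rw [measure_biUnion_finset]
  · simp only [Measure.addHaar_ball_center, Finset.sum_const, Finset.card_range, nsmul_eq_mul]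
  · intro i _ j _ hij
    apply ball_disjoint_ball
    rw [dist_eq_norm, ← sub_smul, norm_smul, hw, mul_one, Real.norm_eq_abs, ← sub_div, abs_div,
      abs_of_pos (by norm_num : (0:ℝ) < 2)]
    have h1 : (1:ℝ) ≤ |(i:ℝ) - j| := by
      have h2 : (i:ℤ) - j ≠ 0 := by
        intro h; apply hij; omega
      have h3 : 1 ≤ |(i:ℤ) - j| := Int.one_le_abs h2
      exact_mod_cast h3
    linarith
  · intro _ _; exact measurableSet_ball

/-- **Coercivity.** -/
theorem coercive (hN : N ≠ 0) {Ω : Set (EuclideanSpace ℝ (Fin N))} (hΩ : Bornology.IsBounded Ω)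
    {B : ℝ≥0∞} (hB : B ≠ ⊤) : ∃ M : ℕ, 0 < M ∧ ∀ K : Set (EuclideanSpace ℝ (Fin N)), IsAniso K →
      K ⊆ ball 0 1 → (∃ v ∈ K, 1 / 2 ≤ ‖v‖) → J Ω K ≤ B → ball 0 ((1:ℝ) / M) ⊆ K := by
  obtain ⟨ρ, hρ, hΩρ⟩ : ∃ ρ : ℝ, 0 < ρ ∧ Ω ⊆ ball 0 ρ := by
    obtain ⟨r, hr⟩ := hΩ.subset_ball 0
    exact ⟨max r 1, by positivity, hr.trans (ball_subset_ball (le_max_left _ _))⟩
  set c := volume (ball (0 : EuclideanSpace ℝ (Fin N)) (1/4)) with hc
  have hc0 : c ≠ 0 := (measure_ball_pos _ _ (by norm_num)).ne'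
  set δ := ENNReal.ofReal (1 / (4 * ρ)) with hδ
  have hδ0 : δ ≠ 0 := (ENNReal.ofReal_pos.2 (by positivity)).ne'
  have hδt : δ ≠ ⊤ := ENNReal.ofReal_ne_top
  have hN' : (N:ℝ) ≠ 0 := by exact_mod_cast hN
  have hQ : (B / δ) ^ N ≠ ⊤ := ENNReal.pow_ne_top (ENNReal.div_ne_top hB hδ0)
  obtain ⟨M, hM0, hM⟩ := ENNReal.exists_nat_pos_mul_gt hc0 hQ
  refine ⟨M, hM0, fun K hK hK1 ⟨v, hv, hv2⟩ hJ => ?_⟩
  have hMr : (0:ℝ) < M := by exact_mod_cast hM0
  -- J is large if K is thin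
  have key : ∀ w : EuclideanSpace ℝ (Fin N), ‖w‖ = 1 → ∃ y ∈ K, 1 < M * inner ℝ w y := by
    intro w hw
    by_contra hcon
    push Not at hcon
    have h1 := polar_ge hK1 hw hcon
    rw [← hc] at h1
    have h2 : δ ≤ cheeger K Ω := by
      refine le_trans ?_ (cheeger_ge hK hv hρ hΩρ)
      apply ENNReal.ofReal_le_ofReal
      rw [div_le_div_iff₀ (by positivity) (by positivity)]
      nlinarith
    have h3 : B / δ < volume (polar K) ^ ((1:ℝ) / N) := by
      have h4 : (B / δ) ^ N < volume (polar K) := hM.trans_le h1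
      have h5 := ENNReal.rpow_lt_rpow h4 (by positivity : (0:ℝ) < (1:ℝ) / N)
      rwa [← ENNReal.rpow_natCast, ← ENNReal.rpow_mul, mul_one_div_cancel hN', ENNReal.rpow_one] at h5
    have h6 : B < J Ω K := by
      unfold J
      calc B = δ * (B / δ) := (ENNReal.mul_div_cancel hδ0 hδt).symm
        _ < δ * volume (polar K) ^ ((1:ℝ) / N) := by
            exact ENNReal.mul_lt_mul_right hδ0 hδt h3
        _ ≤ cheeger K Ω * volume (polar K) ^ ((1:ℝ) / N) := mul_le_mul_left h2 _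
    exact absurd hJ (not_le.2 h6)
  intro x hx
  by_contra hxK
  obtain ⟨f, hf⟩ := geometric_hahn_banach_open_point hK.convex hK.isOpen hxK
  set u := (InnerProductSpace.toDual ℝ (EuclideanSpace ℝ (Fin N))).symm f with hu
  have hfu : ∀ y, f y = inner ℝ u y := fun y => by
    rw [hu, InnerProductSpace.toDual_symm_apply]
  have hu0 : u ≠ 0 := by
    intro h0
    have := hf 0 hK.zero_mem
    rw [hfu, hfu, h0] at this
    simp at this
  have hun : 0 < ‖u‖ := norm_pos_iff.2 hu0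
  obtain ⟨y, hy, hy1⟩ := key (‖u‖⁻¹ • u) (by rw [norm_smul, norm_inv, norm_norm, inv_mul_cancel₀ hun.ne'])
  have h1 := hf y hy
  rw [hfu, hfu] at h1
  rw [real_inner_smul_left] at hy1
  rw [mem_ball_zero_iff, lt_div_iff₀ hMr] at hx
  have h2 : inner ℝ u x ≤ ‖u‖ * ‖x‖ := real_inner_le_norm _ _
  have h3 : ‖u‖ < M * inner ℝ u y := by
    have h4 := mul_lt_mul_of_pos_left hy1 hun
    calc ‖u‖ = ‖u‖ * 1 := (mul_one _).symm
      _ < ‖u‖ * (M * (‖u‖⁻¹ * inner ℝ u y)) := h4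
      _ = M * inner ℝ u y := by field_simp
  have h5 : (M:ℝ) * inner ℝ u y < M * (‖u‖ * ‖x‖) := mul_lt_mul_of_pos_left (h1.trans_le h2) hMr
  nlinarith

end Pool.Agent.V1186.Chee
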