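import Mathlib

set_option autoImplicit false

/-!
Anisotropic perimeter, anisotropic Cheeger constant and the functional `J`.
-/

namespace Pool.Agent.V1186.Chee

open MeasureTheory Set Metric
open scoped ENNReal NNReal Pointwise RealInnerProductSpace

/-- The class `K_N`: nonempty, open, bounded, convex sets that are symmetric with respect to the
origin. -/
structure IsAniso {N : ℕ} (K : Set (EuclideanSpace ℝ (Fin N))) : Prop where
  isOpen : IsOpen K
  convex : Convex ℝ K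
  bounded : Bornology.IsBounded K
  nonempty : K.Nonempty
  symm : ∀ x ∈ K, -x ∈ K

/-- The polar set `{x : x · y < 1 for all y ∈ K}`. -/
def polar {N : ℕ} (K : Set (EuclideanSpace ℝ (Fin N))) : Set (EuclideanSpace ℝ (Fin N)) :=
  {x | ∀ y ∈ K, inner ℝ x y < 1}

/-- Divergence of a vector field. -/
noncomputable def dvg {N : ℕ} (T : EuclideanSpace ℝ (Fin N) → EuclideanSpace ℝ (Fin N))
    (x : EuclideanSpace ℝ (Fin N)) : ℝ :=
  ∑ i, (fderiv ℝ T x (EuclideanSpace.single i 1)) i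

/-- Anisotropic perimeter `P_K(A) = ∫_{∂*A} sup_{y ∈ K} (ν · y) dH^{N-1}`, in De Giorgi's
distributional form `sup {∫_A div T : T ∈ C¹_c(ℝ^N; K)}` (value `∞` if `A` does not have finite
perimeter). -/
noncomputable def per {N : ℕ} (K A : Set (EuclideanSpace ℝ (Fin N))) : ℝ≥0∞ :=
  ⨆ (T : EuclideanSpace ℝ (Fin N) → EuclideanSpace ℝ (Fin N)) (_ : ContDiff ℝ 1 T)
    (_ : HasCompactSupport T) (_ : ∀ x, T x ∈ K), ENNReal.ofReal (∫ x in A, dvg T x)

/-- The anisotropic Cheeger constant `h_K(Ω) = inf {P_K(A) / |A| : A ⊆ Ω Borel, |A| > 0}`. -/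
noncomputable def cheeger {N : ℕ} (K Ω : Set (EuclideanSpace ℝ (Fin N))) : ℝ≥0∞ :=
  ⨅ (A : Set (EuclideanSpace ℝ (Fin N))) (_ : MeasurableSet A) (_ : A ⊆ Ω) (_ : volume A ≠ 0),
    per K A / volume A

/-- `J_Ω[K] = h_K(Ω) |K°|^{1/N}`. -/
noncomputable def J {N : ℕ} (Ω K : Set (EuclideanSpace ℝ (Fin N))) : ℝ≥0∞ :=
  cheeger K Ω * volume (polar K) ^ ((1:ℝ) / N)

variable {N : ℕ}

theorem dvg_smul {T : EuclideanSpace ℝ (Fin N) → EuclideanSpace ℝ (Fin N)} (hT : ContDiff ℝ 1 T)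
    (c : ℝ) (x : EuclideanSpace ℝ (Fin N)) : dvg (fun y => c • T y) x = c * dvg T x := by
  unfold dvg
  rw [fderiv_fun_const_smul ((hT.differentiable one_ne_zero) x), Finset.mul_sum]
  rfl

theorem per_le {K K' : Set (EuclideanSpace ℝ (Fin N))} {s : ℝ} (hs : 0 < s) (h : K ⊆ s • K')
    (A : Set (EuclideanSpace ℝ (Fin N))) : per K A ≤ ENNReal.ofReal s * per K' A := by
  unfold per
  refine iSup_le fun T => iSup_le fun hT => iSup_le fun hc => iSup_le fun hK => ?_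
  have h1 : ∫ x in A, dvg T x = s * ∫ x in A, dvg (fun y => s⁻¹ • T y) x := by
    rw [← integral_const_mul]
    congr 1
    ext x
    rw [dvg_smul hT, ← mul_assoc, mul_inv_cancel₀ hs.ne', one_mul]
  rw [h1, ENNReal.ofReal_mul hs.le]
  refine mul_le_mul_right ?_ _
  have hT' : ContDiff ℝ 1 (fun y => s⁻¹ • T y) := hT.const_smul s⁻¹
  have hc' : HasCompactSupport (fun y => s⁻¹ • T y) := hc.smul_left (f := fun _ => s⁻¹)
  have hK' : ∀ x, (fun y => s⁻¹ • T y) x ∈ K' := fun x => by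
    have := h (hK x)
    rwa [mem_smul_set_iff_inv_smul_mem₀ hs.ne'] at this
  exact (le_iSup₂ (f := fun (_ : HasCompactSupport (fun y => s⁻¹ • T y))
    (_ : ∀ x, (fun y => s⁻¹ • T y) x ∈ K') =>
      ENNReal.ofReal (∫ x in A, dvg (fun y => s⁻¹ • T y) x)) hc' hK').trans
    (le_iSup₂ (f := fun (T : EuclideanSpace ℝ (Fin N) → EuclideanSpace ℝ (Fin N))
      (_ : ContDiff ℝ 1 T) => ⨆ (_ : HasCompactSupport T) (_ : ∀ x, T x ∈ K'),
        ENNReal.ofReal (∫ x in A, dvg T x)) _ hT')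

theorem cheeger_le {K K' : Set (EuclideanSpace ℝ (Fin N))} {s : ℝ} (hs : 0 < s) (h : K ⊆ s • K')
    (Ω : Set (EuclideanSpace ℝ (Fin N))) : cheeger K Ω ≤ ENNReal.ofReal s * cheeger K' Ω := by
  have hs0 : ENNReal.ofReal s ≠ 0 := (ENNReal.ofReal_pos.2 hs).ne'
  rw [← ENNReal.div_le_iff' hs0 ENNReal.ofReal_ne_top]
  unfold cheeger
  refine le_iInf fun A => le_iInf fun hA => le_iInf fun hAΩ => le_iInf fun hA0 => ?_
  rw [ENNReal.div_le_iff' hs0 ENNReal.ofReal_ne_top]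
  refine (iInf_le _ A).trans ((iInf_le _ hA).trans ((iInf_le _ hAΩ).trans ((iInf_le _ hA0).trans ?_)))
  rw [← mul_div_assoc]
  exact ENNReal.div_le_div_right (per_le hs h A) _

theorem polar_sub {K K' : Set (EuclideanSpace ℝ (Fin N))} {t : ℝ} (ht : 0 < t) (h : K' ⊆ t • K) :
    polar K ⊆ t • polar K' := by
  intro x hx
  rw [mem_smul_set_iff_inv_smul_mem₀ ht.ne']
  intro y hy
  obtain ⟨z, hz, rfl⟩ := h hy
  show inner ℝ (t⁻¹ • x) (t • z) < 1
  rw [real_inner_smul_left, real_inner_smul_right, ← mul_assoc, inv_mul_cancel₀ ht.ne', one_mul]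
  exact hx z hz

/-- Comparison of `J` for two close anisotropies. -/
theorem J_le (hN : N ≠ 0) {K K' : Set (EuclideanSpace ℝ (Fin N))} {s t : ℝ} (hs : 0 < s)
    (ht : 0 < t) (h : K ⊆ s • K') (h' : K' ⊆ t • K) (Ω : Set (EuclideanSpace ℝ (Fin N))) :
    J Ω K ≤ ENNReal.ofReal (s * t) * J Ω K' := by
  unfold J
  have h1 := cheeger_le hs h Ω
  have hN' : (N:ℝ) ≠ 0 := by exact_mod_cast hN
  have h2 : volume (polar K) ^ ((1:ℝ) / N) ≤ ENNReal.ofReal t * volume (polar K') ^ ((1:ℝ) / N) := by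
    have h3 : volume (polar K) ≤ ENNReal.ofReal t ^ N * volume (polar K') := by
      refine (measure_mono (polar_sub ht h')).trans ?_
      rw [Measure.addHaar_smul, finrank_euclideanSpace_fin, abs_of_pos (by positivity),
        ENNReal.ofReal_pow ht.le]
    refine (ENNReal.rpow_le_rpow h3 (by positivity)).trans ?_
    rw [ENNReal.mul_rpow_of_nonneg _ _ (by positivity), ← ENNReal.rpow_natCast,
      ← ENNReal.rpow_mul, mul_one_div_cancel hN', ENNReal.rpow_one]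
  refine (mul_le_mul' h1 h2).trans (le_of_eq ?_)
  rw [ENNReal.ofReal_mul hs.le]
  ring

theorem IsAniso.zero_mem {K : Set (EuclideanSpace ℝ (Fin N))} (hK : IsAniso K) : (0 : EuclideanSpace ℝ (Fin N)) ∈ K := by
  obtain ⟨x, hx⟩ := hK.nonempty
  have := hK.convex hx (hK.symm x hx) (a := 1/2) (b := 1/2) (by norm_num) (by norm_num) (by norm_num)
  simpa using this

theorem IsAniso.smul_mem {K : Set (EuclideanSpace ℝ (Fin N))} (hK : IsAniso K)
    {v : EuclideanSpace ℝ (Fin N)} (hv : v ∈ K) {c : ℝ} (hc : |c| ≤ 1) : c • v ∈ K := by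
  obtain ⟨h1, h2⟩ := abs_le.1 hc
  have := hK.convex hv (hK.symm v hv) (a := (1 + c)/2) (b := (1 - c)/2) (by linarith) (by linarith)
    (by ring)
  have e : ((1 + c)/2) • v + ((1 - c)/2) • (-v) = c • v := by
    rw [smul_neg, ← sub_eq_add_neg, ← sub_smul]; congr 1; ring
  rwa [e] at this

theorem IsAniso.smul {K : Set (EuclideanSpace ℝ (Fin N))} (hK : IsAniso K) {c : ℝ} (hc : 0 < c) :
    IsAniso (c • K) := by
  refine ⟨hK.isOpen.smul₀ hc.ne', hK.convex.smul c, hK.bounded.smul₀ c, hK.nonempty.smul_set, ?_⟩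
  rintro x ⟨y, hy, rfl⟩
  exact ⟨-y, hK.symm y hy, by simp⟩

theorem isAniso_ball (N : ℕ) {r : ℝ} (hr : 0 < r) : IsAniso (ball (0 : EuclideanSpace ℝ (Fin N)) r) :=
  ⟨isOpen_ball, convex_ball _ _, isBounded_ball, ⟨0, mem_ball_self hr⟩, fun x hx => by
    rw [mem_ball_zero_iff] at hx ⊢; rwa [norm_neg]⟩

end Pool.Agent.V1186.Chee
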