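import Pool.Agent.V1186.Chee.Coer

set_option autoImplicit false

/-!
Existence of minimizers of `J`.
-/

namespace Pool.Agent.V1186.Chee

open MeasureTheory Set Metric Filter Topology TopologicalSpace
open scoped ENNReal NNReal Pointwise RealInnerProductSpace

variable {N : ℕ}

theorem absorb {D X : Set (EuclideanSpace ℝ (Fin N))} (hD : Convex ℝ D) {r ε η : ℝ}
    (hr : ball 0 r ⊆ D) (hη : 0 < η) (hε : ε ≤ η * r)
    (h : ∀ x ∈ X, ∃ d ∈ D, dist x d < ε) : X ⊆ (1 + η) • D := by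
  intro x hx
  obtain ⟨d, hd, hxd⟩ := h x hx
  rw [mem_smul_set_iff_inv_smul_mem₀ (by linarith : (1 + η) ≠ 0)]
  have h1 : η⁻¹ • (x - d) ∈ D := by
    apply hr
    rw [mem_ball_zero_iff, norm_smul, norm_inv, Real.norm_of_nonneg hη.le, ← dist_eq_norm,
      inv_mul_lt_iff₀ hη]
    linarith
  have h2 := hD hd h1 (a := (1 + η)⁻¹) (b := (1 + η)⁻¹ * η) (by positivity) (by positivity)
    (by field_simp)
  have e : (1 + η)⁻¹ • d + ((1 + η)⁻¹ * η) • (η⁻¹ • (x - d)) = (1 + η)⁻¹ • x := by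
    rw [smul_smul, mul_assoc, mul_inv_cancel₀ hη.ne', mul_one, ← smul_add]
    congr 1
    abel
  rwa [e] at h2

/-- normalization -/
theorem normalize (hN : N ≠ 0) {K : Set (EuclideanSpace ℝ (Fin N))} (hK : IsAniso K) :
    ∃ c : ℝ, 0 < c ∧ c • K ⊆ ball 0 1 ∧ ∃ v ∈ c • K, 1 / 2 ≤ ‖v‖ := by
  obtain ⟨r, hr⟩ := hK.bounded.subset_closedBall 0
  set S : Set ℝ := (fun x => ‖x‖) '' K with hS
  have hbdd : BddAbove S := ⟨r, by
    rintro _ ⟨x, hx, rfl⟩
    simpa using hr hx⟩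
  have hne : S.Nonempty := hK.nonempty.image _
  obtain ⟨ε, hε, hεK⟩ := Metric.isOpen_iff.1 hK.isOpen 0 hK.zero_mem
  have hex : ∃ x ∈ K, 0 < ‖x‖ := by
    let i : Fin N := ⟨0, Nat.pos_of_ne_zero hN⟩
    refine ⟨EuclideanSpace.single i (ε / 2), hεK ?_, ?_⟩
    · rw [mem_ball_zero_iff, EuclideanSpace.norm_single, Real.norm_of_nonneg (by positivity)]
      linarith
    · rw [EuclideanSpace.norm_single, Real.norm_of_nonneg (by positivity)]
      positivity
  obtain ⟨x0, hx0, hx0p⟩ := hex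
  set R := sSup S with hR
  have hR0 : 0 < R := hx0p.trans_le (le_csSup hbdd ⟨x0, hx0, rfl⟩)
  obtain ⟨_, ⟨v, hv, rfl⟩, hv2⟩ := exists_lt_of_lt_csSup hne (by linarith : 3 / 4 * R < sSup S)
  refine ⟨2 / (3 * R), by positivity, ?_, ⟨(2 / (3 * R)) • v, smul_mem_smul_set hv, ?_⟩⟩
  · rintro _ ⟨x, hx, rfl⟩
    have h1 : ‖x‖ ≤ R := le_csSup hbdd ⟨x, hx, rfl⟩
    rw [mem_ball_zero_iff]
    show ‖(2 / (3 * R)) • x‖ < 1
    rw [norm_smul, Real.norm_of_nonneg (by positivity), div_mul_eq_mul_div, div_lt_one (by positivity)]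
    linarith
  · rw [norm_smul, Real.norm_of_nonneg (by positivity), div_mul_eq_mul_div, le_div_iff₀ (by positivity)]
    have : 3 / 4 * R < ‖v‖ := hv2
    linarith

theorem J_smul_le (hN : N ≠ 0) {K : Set (EuclideanSpace ℝ (Fin N))} {c : ℝ} (hc : 0 < c)
    (Ω : Set (EuclideanSpace ℝ (Fin N))) : J Ω (c • K) ≤ J Ω K := by
  have h := J_le hN hc (inv_pos.2 hc) (K := c • K) (K' := K) subset_rfl
    (by rw [smul_smul, inv_mul_cancel₀ hc.ne', one_smul]) Ω
  rwa [mul_inv_cancel₀ hc.ne', ENNReal.ofReal_one, one_mul] at h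

/-- Compactness: a sequence of normalized non-degenerate anisotropies has a limit. -/
theorem compactness {r : ℝ} (hr : 0 < r)
    (K : ℕ → Set (EuclideanSpace ℝ (Fin N))) (hK : ∀ n, IsAniso (K n)) (h1 : ∀ n, K n ⊆ ball 0 1)
    (h2 : ∀ n, ball 0 r ⊆ K n) : ∃ L : Set (EuclideanSpace ℝ (Fin N)), IsAniso L ∧
      ∀ η : ℝ, 0 < η → ∀ n₀ : ℕ, ∃ n ≥ n₀, L ⊆ (1 + η) • K n ∧ K n ⊆ (1 + η) • L := by
  let α := closedBall (0 : EuclideanSpace ℝ (Fin N)) 1
  have : CompactSpace α := isCompact_iff_compactSpace.1 (isCompact_closedBall _ _)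
  let C : ℕ → NonemptyCompacts α := fun n =>
    ⟨⟨{x : α | (x : EuclideanSpace ℝ (Fin N)) ∈ closure (K n)},
      (isClosed_closure.preimage continuous_subtype_val).isCompact⟩,
      ⟨⟨0, mem_closedBall_self zero_le_one⟩, subset_closure (hK n).zero_mem⟩⟩
  obtain ⟨a, -, φ, hφ, hlim⟩ := isCompact_univ.tendsto_subseq (x := C) (fun n => mem_univ _)
  set D : Set (EuclideanSpace ℝ (Fin N)) := Subtype.val '' (a : Set α) with hD
  have hDc : IsCompact D := a.isCompact.image continuous_subtype_val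
  have hcl : ∀ n, closure (K n) ⊆ closedBall 0 1 := fun n =>
    closure_minimal ((h1 n).trans ball_subset_closedBall) isClosed_closedBall
  -- Hausdorff closeness
  have hclose : ∀ ε > 0, ∀ n₀ : ℕ, ∃ n ≥ n₀, (∀ x ∈ D, ∃ y ∈ closure (K n), dist x y < ε) ∧
      ∀ y ∈ closure (K n), ∃ x ∈ D, dist y x < ε := by
    intro ε hε n₀
    have h3 := Metric.tendsto_atTop.1 hlim ε hε
    obtain ⟨m, hm⟩ := h3
    refine ⟨φ (max m n₀), (le_max_right _ _).trans (hφ.id_le _), ?_⟩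
    have h4 := hm (max m n₀) (le_max_left _ _)
    rw [Function.comp_apply, NonemptyCompacts.dist_eq] at h4
    have hfin : hausdorffEDist (C (φ (max m n₀)) : Set α) (a : Set α) ≠ ⊤ :=
      hausdorffEDist_ne_top_of_nonempty_of_bounded (C _).nonempty a.nonempty
        (C _).isCompact.isBounded a.isCompact.isBounded
    refine ⟨?_, ?_⟩
    · rintro _ ⟨x, hx, rfl⟩
      obtain ⟨y, hy, hxy⟩ := exists_dist_lt_of_hausdorffDist_lt' hx h4 hfin
      exact ⟨y, hy, by rw [dist_comm]; exact hxy⟩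
    · intro y hy
      obtain ⟨x, hx, hxy⟩ := exists_dist_lt_of_hausdorffDist_lt
        (x := (⟨y, hcl _ hy⟩ : α)) (show (⟨y, hcl _ hy⟩ : α) ∈ (C (φ (max m n₀)) : Set α) from hy) h4 hfin
      exact ⟨x, ⟨x, hx, rfl⟩, hxy⟩
  have hDcl : closure D = D := hDc.isClosed.closure_eq
  -- membership criterion
  have hmem : ∀ z, (∀ ε > 0, ∃ x ∈ D, dist z x < ε) → z ∈ D := by
    intro z hz
    rw [← hDcl, Metric.mem_closure_iff]
    exact hz
  have hDconv : Convex ℝ D := by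
    intro x hx y hy s t hs ht hst
    apply hmem
    intro ε hε
    obtain ⟨n, -, hn1, hn2⟩ := hclose (ε / 2) (by positivity) 0
    obtain ⟨x', hx', hxx'⟩ := hn1 x hx
    obtain ⟨y', hy', hyy'⟩ := hn1 y hy
    obtain ⟨z, hz, hzz⟩ := hn2 (s • x' + t • y') ((hK n).convex.closure hx' hy' hs ht hst)
    refine ⟨z, hz, ?_⟩
    have h5 : dist (s • x + t • y) (s • x' + t • y') ≤ ε / 2 := by
      rw [dist_eq_norm]
      have e : s • x + t • y - (s • x' + t • y') = s • (x - x') + t • (y - y') := by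
        rw [smul_sub, smul_sub]; abel
      rw [e]
      refine (norm_add_le _ _).trans ?_
      rw [norm_smul, norm_smul, Real.norm_of_nonneg hs, Real.norm_of_nonneg ht, ← dist_eq_norm,
        ← dist_eq_norm]
      have a1 := mul_le_mul_of_nonneg_left hxx'.le hs
      have a2 := mul_le_mul_of_nonneg_left hyy'.le ht
      have a3 : s * (ε / 2) + t * (ε / 2) = ε / 2 := by rw [← add_mul, hst, one_mul]
      linarith
    calc dist (s • x + t • y) z ≤ dist (s • x + t • y) (s • x' + t • y') + dist (s • x' + t • y') z :=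
          dist_triangle _ _ _
      _ < ε := by linarith
  have hDsymm : ∀ x ∈ D, -x ∈ D := by
    intro x hx
    apply hmem
    intro ε hε
    obtain ⟨n, -, hn1, hn2⟩ := hclose (ε / 2) (by positivity) 0
    obtain ⟨y, hy, hxy⟩ := hn1 x hx
    have hy' : -y ∈ closure (K n) := by
      have hmaps : MapsTo (fun x : EuclideanSpace ℝ (Fin N) => -x) (K n) (K n) := fun x hx =>
        (hK n).symm x hx
      exact map_mem_closure continuous_neg hy hmaps
    obtain ⟨z, hz, hyz⟩ := hn2 _ hy'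
    refine ⟨z, hz, ?_⟩
    have h5 : dist (-x) (-y) < ε / 2 := by rwa [dist_neg_neg]
    linarith [dist_triangle (-x) (-y) z]
  have hDball : ball 0 r ⊆ D := by
    intro x hx
    apply hmem
    intro ε hε
    obtain ⟨n, -, hn1, hn2⟩ := hclose ε hε 0
    exact hn2 x (subset_closure (h2 n hx))
  have hDint : ball 0 r ⊆ interior D := interior_maximal hDball isOpen_ball
  refine ⟨interior D, ⟨isOpen_interior, hDconv.interior, hDc.isBounded.subset interior_subset,
    ⟨0, hDint (mem_ball_self hr)⟩, ?_⟩, ?_⟩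
  · intro x hx
    have h5 : Homeomorph.neg (EuclideanSpace ℝ (Fin N)) ⁻¹' interior D = interior D := by
      rw [(Homeomorph.neg _).preimage_interior]
      congr 1
      ext y
      exact ⟨fun h => by simpa using hDsymm _ h, fun h => hDsymm _ h⟩
    have h6 : -x ∈ Homeomorph.neg (EuclideanSpace ℝ (Fin N)) ⁻¹' interior D := by
      show - -x ∈ interior D
      rwa [neg_neg]
    rwa [h5] at h6
  · intro η hη n₀
    obtain ⟨n, hn0, hn1, hn2⟩ := hclose (η * r / 2) (by positivity) n₀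
    refine ⟨n, hn0, ?_, ?_⟩
    · refine interior_subset.trans ?_
      refine absorb (hK n).convex (h2 n) hη (ε := η * r) le_rfl fun x hx => ?_
      obtain ⟨y, hy, hxy⟩ := hn1 x hx
      obtain ⟨z, hz, hyz⟩ := Metric.mem_closure_iff.1 hy (η * r / 2) (by positivity)
      exact ⟨z, hz, by linarith [dist_triangle x y z]⟩
    · have h5 : K n ⊆ (1 + η) • D := by
        refine absorb hDconv hDball hη (ε := η * r) le_rfl fun x hx => ?_
        obtain ⟨y, hy, hxy⟩ := hn2 x (subset_closure hx)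
        exact ⟨y, hy, by linarith [mul_pos hη hr]⟩
      rw [← interior_smul₀ (by linarith : (1 + η) ≠ 0)]
      exact interior_maximal h5 (hK n).isOpen

/-- **Existence of a minimizer of `J_Ω`** for every bounded set `Ω ⊆ ℝ^N`, `N ≥ 1`. -/
theorem exists_min (hN : N ≠ 0) {Ω : Set (EuclideanSpace ℝ (Fin N))} (hΩ : Bornology.IsBounded Ω) :
    ∃ K : Set (EuclideanSpace ℝ (Fin N)), IsAniso K ∧ ∀ K', IsAniso K' → J Ω K ≤ J Ω K' := by
  set I : ℝ≥0∞ := ⨅ (K : Set (EuclideanSpace ℝ (Fin N))) (_ : IsAniso K), J Ω K with hI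
  have hIle : ∀ K, IsAniso K → I ≤ J Ω K := fun K hK => iInf₂_le K hK
  rcases eq_or_ne I ⊤ with hIt | hIt
  · exact ⟨ball 0 1, isAniso_ball N one_pos, fun K' hK' => by
      have := hIle K' hK'
      rw [hIt, top_le_iff] at this
      rw [this]; exact le_top⟩
  -- minimizing sequence
  have hseq : ∀ n : ℕ, ∃ K : Set (EuclideanSpace ℝ (Fin N)), IsAniso K ∧ K ⊆ ball 0 1 ∧
      (∃ v ∈ K, 1 / 2 ≤ ‖v‖) ∧ J Ω K ≤ I + ENNReal.ofReal (1 / (n + 1)) := by
    intro n
    have hlt : I < I + ENNReal.ofReal (1 / ((n:ℝ) + 1)) :=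
      ENNReal.lt_add_right hIt (ENNReal.ofReal_pos.2 (by positivity)).ne'
    conv_lhs at hlt => rw [hI]
    obtain ⟨K, hK'⟩ := iInf_lt_iff.1 hlt
    obtain ⟨hK, hJ⟩ := iInf_lt_iff.1 hK'
    obtain ⟨c, hc, hc1, hc2⟩ := normalize hN hK
    exact ⟨c • K, hK.smul hc, hc1, hc2, (J_smul_le hN hc Ω).trans hJ.le⟩
  choose K hK hK1 hKv hKJ using hseq
  obtain ⟨M, hM, hMb⟩ := coercive hN hΩ (B := I + 1) (ENNReal.add_ne_top.2 ⟨hIt, ENNReal.one_ne_top⟩)
  have hMr : (0:ℝ) < M := by exact_mod_cast hM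
  have hball : ∀ n, ball 0 ((1:ℝ) / M) ⊆ K n := by
    intro n
    apply hMb (K n) (hK n) (hK1 n) (hKv n)
    refine (hKJ n).trans ?_
    gcongr
    rw [← ENNReal.ofReal_one]
    apply ENNReal.ofReal_le_ofReal
    rw [div_le_one (by positivity)]
    linarith [Nat.cast_nonneg (α := ℝ) n]
  obtain ⟨L, hL, hclose⟩ := compactness (by positivity) K hK hK1 hball
  refine ⟨L, hL, fun K' hK' => le_trans ?_ (hIle K' hK')⟩
  -- J L ≤ I
  have hbound : ∀ m : ℕ, J Ω L ≤ ENNReal.ofReal ((1 + 1 / ((m:ℝ) + 1)) * (1 + 1 / ((m:ℝ) + 1))) *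
      (I + ENNReal.ofReal (1 / (m + 1))) := by
    intro m
    obtain ⟨n, hn, h1, h2⟩ := hclose (1 / ((m:ℝ) + 1)) (by positivity) m
    refine (J_le hN (by positivity) (by positivity) h1 h2 Ω).trans ?_
    gcongr
    refine (hKJ n).trans ?_
    gcongr
  have ht1 : Tendsto (fun m : ℕ => (1:ℝ) / ((m:ℝ) + 1)) atTop (𝓝 0) :=
    tendsto_one_div_add_atTop_nhds_zero_nat
  have ht2 : Tendsto (fun m : ℕ => (1 + 1 / ((m:ℝ) + 1)) * (1 + 1 / ((m:ℝ) + 1))) atTop (𝓝 1) := by
    have h := (ht1.const_add 1).mul (ht1.const_add 1)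
    simpa using h
  have ht3 : Tendsto (fun m : ℕ => ENNReal.ofReal ((1 + 1 / ((m:ℝ) + 1)) * (1 + 1 / ((m:ℝ) + 1))))
      atTop (𝓝 1) := by
    have := ENNReal.tendsto_ofReal ht2
    rwa [ENNReal.ofReal_one] at this
  have ht4 : Tendsto (fun m : ℕ => I + ENNReal.ofReal (1 / ((m:ℝ) + 1))) atTop (𝓝 I) := by
    have h := (ENNReal.tendsto_ofReal ht1).const_add I
    simpa using h
  have ht5 := ENNReal.Tendsto.mul ht3 (Or.inl one_ne_zero) ht4 (Or.inr ENNReal.one_ne_top)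
  rw [one_mul] at ht5
  exact ge_of_tendsto' ht5 hbound

end Pool.Agent.V1186.Chee
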