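import Pool.Agent.V1186.Chee.Coer

set_option autoImplicit false

/-!
Planar estimates: `h_K(B) ≥ N` if `B ⊆ K`, and an upper bound for the square anisotropy.
-/

namespace Pool.Agent.V1186.Chee

open MeasureTheory Set Metric Filter Topology
open scoped ENNReal NNReal Pointwise RealInnerProductSpace

/-- if `K` contains the unit ball then `h_K(B) ≥ N` -/
theorem cheeger_ball_ge {N : ℕ} {K : Set (EuclideanSpace ℝ (Fin N))}
    (hK : ball 0 1 ⊆ K) : ENNReal.ofReal N ≤ cheeger K (ball 0 1) := by
  unfold cheeger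
  refine le_iInf fun A => le_iInf fun hA => le_iInf fun hAΩ => le_iInf fun hA0 => ?_
  have hfin : volume A ≠ ⊤ := ((isBounded_ball.subset hAΩ).measure_lt_top).ne
  rw [ENNReal.le_div_iff_mul_le (Or.inl hA0) (Or.inl hfin)]
  -- for every t < 1
  have key : ∀ t : ℝ, 0 < t → t < 1 → ENNReal.ofReal (t * N) * volume A ≤ per K A := by
    intro t ht0 ht1
    let f : ContDiffBump (0 : EuclideanSpace ℝ (Fin N)) :=
      ⟨1, 1 / t, one_pos, by rw [lt_div_iff₀ ht0]; linarith⟩
    let T : EuclideanSpace ℝ (Fin N) → EuclideanSpace ℝ (Fin N) := fun x => (t * f x) • x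
    have hT : ContDiff ℝ 1 T := (contDiff_const.mul f.contDiff).smul contDiff_id
    have hc : HasCompactSupport T := by
      have h1 : HasCompactSupport (fun x => t * f x) := f.hasCompactSupport.mul_left
      exact h1.smul_right
    have hTK : ∀ x, T x ∈ K := by
      intro x
      apply hK
      rw [mem_ball_zero_iff]
      show ‖(t * f x) • x‖ < 1
      by_cases hx : 1 / t ≤ dist x 0
      · have h0 : f x = 0 := f.zero_of_le_dist hx
        rw [h0]; simp
      · push Not at hx
        rw [dist_zero_right, lt_div_iff₀ ht0] at hx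
        rw [norm_smul, Real.norm_of_nonneg (mul_nonneg ht0.le f.nonneg)]
        have h1 : f x ≤ 1 := f.le_one
        have h2 : 0 ≤ ‖x‖ * t := by positivity
        calc t * f x * ‖x‖ = f x * (‖x‖ * t) := by ring
          _ ≤ 1 * (‖x‖ * t) := mul_le_mul_of_nonneg_right h1 h2
          _ < 1 := by linarith
    have hdiv : ∀ x ∈ A, dvg T x = t * N := by
      intro x hx
      have hev : T =ᶠ[𝓝 x] fun x => t • x := by
        filter_upwards [f.eventuallyEq_one_of_mem_ball (hAΩ hx)] with y hy
        show (t * f y) • y = _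
        rw [hy]; simp
      have hd : HasFDerivAt (fun x : EuclideanSpace ℝ (Fin N) => t • x)
          (t • ContinuousLinearMap.id ℝ (EuclideanSpace ℝ (Fin N))) x :=
        (t • ContinuousLinearMap.id ℝ (EuclideanSpace ℝ (Fin N))).hasFDerivAt
      unfold dvg
      rw [hev.fderiv_eq, hd.fderiv]
      simp
      ring
    have hint : ∫ x in A, dvg T x = t * N * volume.real A := by
      rw [setIntegral_congr_fun hA hdiv, setIntegral_const, smul_eq_mul, mul_comm]
    have hle : ENNReal.ofReal (∫ x in A, dvg T x) ≤ per K A := by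
      unfold per
      exact (le_iSup₂ (f := fun (_ : HasCompactSupport T) (_ : ∀ x, T x ∈ K) =>
          ENNReal.ofReal (∫ x in A, dvg T x)) hc hTK).trans
        (le_iSup₂ (f := fun (T : EuclideanSpace ℝ (Fin N) → EuclideanSpace ℝ (Fin N))
          (_ : ContDiff ℝ 1 T) => ⨆ (_ : HasCompactSupport T) (_ : ∀ x, T x ∈ K),
            ENNReal.ofReal (∫ x in A, dvg T x)) _ hT)
    refine le_trans (le_of_eq ?_) hle
    rw [hint, Measure.real, ENNReal.ofReal_mul (by positivity : 0 ≤ t * N),
      ENNReal.ofReal_toReal hfin]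
  have ht : Tendsto (fun n : ℕ => ENNReal.ofReal ((1 - 1 / ((n:ℝ) + 2)) * N) * volume A) atTop
      (𝓝 (ENNReal.ofReal (1 * N) * volume A)) := by
    apply ENNReal.Tendsto.mul_const _ (Or.inr hfin)
    apply ENNReal.tendsto_ofReal
    apply Tendsto.mul_const
    have h1 : Tendsto (fun n : ℕ => 1 / ((n:ℝ) + 2)) atTop (𝓝 0) := by
      have h2 := (tendsto_one_div_add_atTop_nhds_zero_nat (𝕜 := ℝ)).comp (tendsto_add_atTop_nat 1)
      refine h2.congr fun n => ?_
      simp only [Function.comp_apply]
      push_cast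
      congr 1
      ring
    simpa using h1.const_sub 1
  rw [one_mul] at ht
  refine le_of_tendsto' ht fun n => ?_
  have h2 : (0:ℝ) < (n:ℝ) + 2 := by positivity
  have h3 : 1 / ((n:ℝ) + 2) < 1 := by rw [div_lt_one h2]; linarith [Nat.cast_nonneg (α := ℝ) n]
  have h4 : 0 < 1 / ((n:ℝ) + 2) := by positivity
  exact key _ (by linarith) (by linarith)

/-- `ℝ × ℝ → ℝ²` -/
def emb (p : ℝ × ℝ) : EuclideanSpace ℝ (Fin 2) := WithLp.toLp 2 ![p.1, p.2]

theorem emb_zero (p : ℝ × ℝ) : emb p 0 = p.1 := rfl
theorem emb_one (p : ℝ × ℝ) : emb p 1 = p.2 := rfl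

theorem emb_eta (x : EuclideanSpace ℝ (Fin 2)) : emb (x 0, x 1) = x := by
  ext i; fin_cases i <;> rfl

theorem emb_mp : MeasurePreserving emb (volume : Measure (ℝ × ℝ)) volume :=
  (PiLp.volume_preserving_toLp (Fin 2)).comp (volume_preserving_finTwoArrow ℝ).symm

theorem emb_me : MeasurableEmbedding emb :=
  (MeasurableEquiv.toLp 2 (Fin 2 → ℝ)).measurableEmbedding.comp
    (MeasurableEquiv.finTwoArrow (α := ℝ)).symm.measurableEmbedding

/-- the open square -/
def sq : Set (EuclideanSpace ℝ (Fin 2)) := {x | |x 0| < 1 ∧ |x 1| < 1}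

/-- the disk cut by a square -/
def Ea (a : ℝ) : Set (EuclideanSpace ℝ (Fin 2)) :=
  {x | |x 0| < a ∧ |x 1| < a ∧ x 0 ^ 2 + x 1 ^ 2 < 1}

/-- the disk cut by a square, in `ℝ × ℝ` -/
def Sa (a : ℝ) : Set (ℝ × ℝ) := {p | |p.1| < a ∧ |p.2| < a ∧ p.1 ^ 2 + p.2 ^ 2 < 1}

theorem emb_pre (a : ℝ) : emb ⁻¹' Ea a = Sa a := rfl

theorem Sa_open (a : ℝ) : IsOpen (Sa a) := by
  have h1 : Continuous fun p : ℝ × ℝ => |p.1| := by fun_prop
  have h2 : Continuous fun p : ℝ × ℝ => |p.2| := by fun_prop
  have h3 : Continuous fun p : ℝ × ℝ => p.1 ^ 2 + p.2 ^ 2 := by fun_prop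
  exact (isOpen_lt h1 continuous_const).inter ((isOpen_lt h2 continuous_const).inter
    (isOpen_lt h3 continuous_const))

theorem co_cont (i : Fin 2) : Continuous fun x : EuclideanSpace ℝ (Fin 2) => x i :=
  (EuclideanSpace.proj (𝕜 := ℝ) i).continuous

theorem Ea_open (a : ℝ) : IsOpen (Ea a) := by
  have h1 := (co_cont 0).abs
  have h2 := (co_cont 1).abs
  have h3 := ((co_cont 0).pow 2).add ((co_cont 1).pow 2)
  exact (isOpen_lt h1 continuous_const).inter ((isOpen_lt h2 continuous_const).inter
    (isOpen_lt h3 continuous_const))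

/-- half width of the slice -/
noncomputable def gw (a x : ℝ) : ℝ := min a √(1 - x ^ 2)

theorem slice_iff {a x y : ℝ} (hx : |x| < a) :
    (x, y) ∈ Sa a ↔ y ∈ Ioo (-gw a x) (gw a x) := by
  unfold Sa gw
  rw [mem_Ioo, ← abs_lt, lt_min_iff, Real.lt_sqrt (abs_nonneg _), sq_abs]
  constructor
  · rintro ⟨-, h2, h3⟩
    exact ⟨h2, by simp only at h3; linarith⟩
  · rintro ⟨h2, h3⟩
    exact ⟨hx, h2, by simp only; linarith⟩

theorem slice_bound {a : ℝ} (ha : 0 < a) {f : ℝ × ℝ → ℝ} (hf : Continuous f)
    (hc : HasCompactSupport f) {G : ℝ → ℝ → ℝ} (hG : ∀ x y, HasDerivAt (G x) (f (x, y)) y)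
    (hb : ∀ x y, |G x y| < 1) : ∫ p in Sa a, f p ≤ 4 * a := by
  have hint : Integrable f := hf.integrable_of_hasCompactSupport hc
  have hmeas := (Sa_open a).measurableSet
  rw [← integral_indicator hmeas]
  have hind : Integrable ((Sa a).indicator f) := hint.indicator hmeas
  rw [Measure.volume_eq_prod] at hind ⊢
  rw [integral_prod _ hind]
  have hslice : ∀ x : ℝ, ∫ y : ℝ, (Sa a).indicator f (x, y) ≤ (Ioo (-a) a).indicator (fun _ => 2) x := by
    intro x
    by_cases hx : |x| < a
    · have hxI : x ∈ Ioo (-a) a := abs_lt.1 hx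
      rw [indicator_of_mem hxI]
      have hg0 : 0 ≤ gw a x := le_min ha.le (Real.sqrt_nonneg _)
      have e : (fun y => (Sa a).indicator f (x, y)) =
          (Ioo (-gw a x) (gw a x)).indicator (fun y => f (x, y)) := by
        ext y
        by_cases hy : (x, y) ∈ Sa a
        · rw [indicator_of_mem hy, indicator_of_mem ((slice_iff hx).1 hy)]
        · rw [indicator_of_notMem hy, indicator_of_notMem fun h => hy ((slice_iff hx).2 h)]
      rw [e, integral_indicator measurableSet_Ioo, ← integral_Ioc_eq_integral_Ioo,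
        ← intervalIntegral.integral_of_le (by linarith)]
      have hcont : Continuous fun y => f (x, y) := hf.comp (by fun_prop)
      rw [intervalIntegral.integral_eq_sub_of_hasDerivAt (fun y _ => hG x y)
        (hcont.intervalIntegrable _ _)]
      have h1 := abs_lt.1 (hb x (gw a x))
      have h2 := abs_lt.1 (hb x (-gw a x))
      linarith
    · have hx' : x ∉ Ioo (-a) a := fun h => hx (abs_lt.2 h)
      rw [indicator_of_notMem hx']
      have e : (fun y => (Sa a).indicator f (x, y)) = fun _ => 0 := by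
        ext y
        exact indicator_of_notMem (fun h => hx h.1) _
      rw [e]; simp
  refine (integral_mono hind.integral_prod_left ?_ hslice).trans ?_
  · exact (integrable_indicator_iff measurableSet_Ioo).2 (integrableOn_const (by simp))
  · rw [integral_indicator measurableSet_Ioo, setIntegral_const, smul_eq_mul, Real.volume_real_Ioo_of_le (by linarith)]
    linarith

theorem per_sq_le {a : ℝ} (ha : 0 < a) : per sq (Ea a) ≤ ENNReal.ofReal (8 * a) := by
  unfold per
  refine iSup_le fun T => iSup_le fun hT => iSup_le fun hc => iSup_le fun hK => ?_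
  apply ENNReal.ofReal_le_ofReal
  have hfd : Continuous (fderiv ℝ T) := hT.continuous_fderiv one_ne_zero
  let F : Fin 2 → EuclideanSpace ℝ (Fin 2) → ℝ := fun i x => (fderiv ℝ T x (EuclideanSpace.single i 1)) i
  have hFc : ∀ i, Continuous (F i) := fun i =>
    (co_cont i).comp (hfd.clm_apply continuous_const)
  have hFs : ∀ i, HasCompactSupport (F i) := by
    intro i
    have h1 : HasCompactSupport (fun x => fderiv ℝ T x (EuclideanSpace.single i 1)) :=
      hc.fderiv_apply (𝕜 := ℝ) _
    exact h1.comp_left (g := fun v : EuclideanSpace ℝ (Fin 2) => v i) rfl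
  have hFi : ∀ i, Integrable (F i) := fun i => (hFc i).integrable_of_hasCompactSupport (hFs i)
  have hdv : ∀ x, dvg T x = F 0 x + F 1 x := by
    intro x
    unfold dvg
    rw [Fin.sum_univ_two]
  have h1 : ∫ x in Ea a, dvg T x = (∫ x in Ea a, F 0 x) + ∫ x in Ea a, F 1 x := by
    simp only [hdv]
    exact integral_add (hFi 0).integrableOn (hFi 1).integrableOn
  have hTi : ∀ x i, |T x i| < 1 := by
    intro x i
    fin_cases i
    · exact (hK x).1
    · exact (hK x).2
  have hTd : ∀ x, HasFDerivAt T (fderiv ℝ T x) x := fun x =>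
    ((hT.differentiable one_ne_zero) x).hasFDerivAt
  have hcoord : ∀ (i : Fin 2) (γ : ℝ → EuclideanSpace ℝ (Fin 2)) (t : ℝ),
      HasDerivAt γ (EuclideanSpace.single i 1) t → HasDerivAt (fun s => T (γ s) i) (F i (γ t)) t := by
    intro i γ t hγ
    have h2 := (hTd (γ t)).comp_hasDerivAt t hγ
    exact (EuclideanSpace.proj (𝕜 := ℝ) i).hasFDerivAt.comp_hasDerivAt t h2
  have hy : ∀ x y : ℝ, HasDerivAt (fun s => emb (x, s)) (EuclideanSpace.single 1 1) y := by
    intro x y
    have e : (fun s : ℝ => emb (x, s)) = fun s => emb (x, 0) + s • EuclideanSpace.single 1 (1:ℝ) := by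
      ext s i
      fin_cases i <;> simp [emb]
    rw [e]
    simpa using ((hasDerivAt_id y).smul_const (EuclideanSpace.single (1 : Fin 2) (1:ℝ))).const_add
      (emb (x, 0))
  have hx : ∀ x y : ℝ, HasDerivAt (fun s => emb (s, y)) (EuclideanSpace.single 0 1) x := by
    intro x y
    have e : (fun s : ℝ => emb (s, y)) = fun s => emb (0, y) + s • EuclideanSpace.single 0 (1:ℝ) := by
      ext s i
      fin_cases i <;> simp [emb]
    rw [e]
    simpa using ((hasDerivAt_id x).smul_const (EuclideanSpace.single (0 : Fin 2) (1:ℝ))).const_add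
      (emb (0, y))
  have hemb : Continuous emb := by
    refine (PiLp.continuous_toLp 2 _).comp ?_
    refine continuous_pi fun j => ?_
    fin_cases j
    · exact continuous_fst
    · exact continuous_snd
  have hcs : ∀ i, HasCompactSupport (fun p => F i (emb p)) := by
    intro i
    -- emb is a homeomorphism onto
    have hproper : IsCompact (emb ⁻¹' tsupport (F i)) := by
      have hcont : Continuous fun x : EuclideanSpace ℝ (Fin 2) => ((x 0, x 1) : ℝ × ℝ) :=
        (co_cont 0).prodMk (co_cont 1)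
      have himg : emb ⁻¹' tsupport (F i) =
          (fun x : EuclideanSpace ℝ (Fin 2) => ((x 0, x 1) : ℝ × ℝ)) '' tsupport (F i) := by
        ext p
        constructor
        · intro hp
          exact ⟨emb p, hp, rfl⟩
        · rintro ⟨x, hx, rfl⟩
          show emb (x 0, x 1) ∈ tsupport (F i)
          rwa [emb_eta]
      rw [himg]
      exact (hFs i).isCompact.image hcont
    apply HasCompactSupport.of_support_subset_isCompact hproper
    intro p hp
    exact subset_tsupport _ hp
  have b1 : ∫ x in Ea a, F 1 x ≤ 4 * a := by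
    rw [← emb_mp.setIntegral_preimage_emb emb_me, emb_pre]
    exact slice_bound ha ((hFc 1).comp hemb) (hcs 1) (G := fun x y => T (emb (x, y)) 1)
      (fun x y => hcoord 1 (fun s => emb (x, s)) y (hy x y)) (fun x y => hTi _ 1)
  have b0 : ∫ x in Ea a, F 0 x ≤ 4 * a := by
    rw [← emb_mp.setIntegral_preimage_emb emb_me, emb_pre]
    have hsw := (Measure.measurePreserving_swap (μ := (volume : Measure ℝ))
      (ν := (volume : Measure ℝ)))
    have hswe : MeasurableEmbedding (Prod.swap : ℝ × ℝ → ℝ × ℝ) :=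
      (MeasurableEquiv.prodComm (α := ℝ) (β := ℝ)).measurableEmbedding
    have hpre : Prod.swap ⁻¹' Sa a = Sa a := by
      ext p
      constructor
      · rintro ⟨h1, h2, h3⟩
        exact ⟨h2, h1, by simp only [Prod.fst_swap, Prod.snd_swap] at h3; linarith⟩
      · rintro ⟨h1, h2, h3⟩
        exact ⟨h2, h1, by simp only [Prod.fst_swap, Prod.snd_swap]; linarith⟩
    have h5 := hsw.setIntegral_preimage_emb hswe (fun p => F 0 (emb p)) (Sa a)
    rw [hpre] at h5
    rw [Measure.volume_eq_prod, ← h5, ← Measure.volume_eq_prod]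
    refine slice_bound ha ((hFc 0).comp (hemb.comp continuous_swap)) ?_
      (G := fun x y => T (emb (y, x)) 0)
      (fun x y => hcoord 0 (fun s => emb (s, x)) y (hx y x)) (fun x y => hTi _ 0)
    exact (hcs 0).comp_homeomorph (Homeomorph.prodComm ℝ ℝ)
  rw [h1]
  linarith

end Pool.Agent.V1186.Chee
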