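import Pool.Agent.V1186.Chee.Area

set_option autoImplicit false

/-!
A symmetric polygon with many sides close to the square.
-/

namespace Pool.Agent.V1186.Chee

open MeasureTheory Set Metric Filter Topology
open scoped ENNReal NNReal Pointwise

/-- the angles -/
noncomputable def th (q : ℕ) (i : Fin q) : ℝ := Real.pi / 2 * ((i:ℝ) + 1) / (q + 1)

theorem th_pos (q : ℕ) (i : Fin q) : 0 < th q i := by
  unfold th; have := Real.pi_pos; positivity

theorem th_lt (q : ℕ) (i : Fin q) : th q i < Real.pi / 2 := by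
  unfold th
  have h1 : ((i:ℕ):ℝ) + 1 < q + 1 := by
    have : ((i:ℕ):ℝ) < q := by exact_mod_cast i.2
    linarith
  have h2 : (0:ℝ) < (q:ℝ) + 1 := by positivity
  rw [div_lt_iff₀ h2]
  exact mul_lt_mul_of_pos_left h1 (by have := Real.pi_pos; positivity)

theorem th_inj (q : ℕ) : Function.Injective (th q) := by
  intro i j h
  unfold th at h
  have h2 : (0:ℝ) < (q:ℝ) + 1 := by positivity
  have h3 := Real.pi_pos
  have h4 : ((i:ℕ):ℝ) = ((j:ℕ):ℝ) := by
    field_simp at h
    linarith
  exact Fin.ext (by exact_mod_cast h4)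

theorem c_pos (q : ℕ) (i : Fin q) : 0 < Real.cos (th q i) :=
  Real.cos_pos_of_mem_Ioo ⟨by linarith [th_pos q i, Real.pi_pos], th_lt q i⟩

theorem s_pos (q : ℕ) (i : Fin q) : 0 < Real.sin (th q i) :=
  Real.sin_pos_of_pos_of_lt_pi (th_pos q i) (by linarith [th_lt q i, Real.pi_pos])

theorem c_ne (q : ℕ) {i j : Fin q} (h : i ≠ j) : Real.cos (th q i) ≠ Real.cos (th q j) := by
  intro hc
  have h1 : th q i ∈ Icc 0 Real.pi := ⟨(th_pos q i).le, by linarith [th_lt q i, Real.pi_pos]⟩
  have h2 : th q j ∈ Icc 0 Real.pi := ⟨(th_pos q j).le, by linarith [th_lt q j, Real.pi_pos]⟩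
  exact h (th_inj q (Real.injOn_cos h1 h2 hc))

/-- the parameter -/
noncomputable def dl : ℝ := 1 / 2000

/-- sign -/
def sg (s : Bool) : ℝ := if s then 1 else -1

/-- the vertices of one half -/
noncomputable def hv (q : ℕ) : Option (Fin q) → ℝ × ℝ
  | none => (1, -1)
  | some i => (1 - dl + dl * Real.cos (th q i), 1 - dl + dl * Real.sin (th q i))

/-- the vertices -/
noncomputable def vt (q : ℕ) (a : Bool × Option (Fin q)) : EuclideanSpace ℝ (Fin 2) :=
  sg a.1 • emb (hv q a.2)

/-- the supporting functionals -/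
noncomputable def fn (q : ℕ) : Option (Fin q) → ℝ × ℝ
  | none => (1, -1)
  | some i => (Real.cos (th q i), Real.sin (th q i))

theorem key_ineq (q : ℕ) (a b : Option (Fin q)) :
    (a ≠ b → (fn q a).1 * (hv q b).1 + (fn q a).2 * (hv q b).2 <
      (fn q a).1 * (hv q a).1 + (fn q a).2 * (hv q a).2) ∧
    -((fn q a).1 * (hv q b).1 + (fn q a).2 * (hv q b).2) <
      (fn q a).1 * (hv q a).1 + (fn q a).2 * (hv q a).2 := by
  have hdl : dl = 1 / 2000 := rfl
  cases a with
  | none =>
    cases b with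
    | none => simp [fn, hv]; norm_num
    | some j =>
      have h1 := c_pos q j
      have h2 := s_pos q j
      have h3 := Real.cos_le_one (th q j)
      have h4 := Real.sin_le_one (th q j)
      simp only [fn, hv, hdl]
      constructor
      · intro _; linarith
      · linarith
  | some i =>
    have h1 := c_pos q i
    have h2 := s_pos q i
    have h3 := Real.cos_le_one (th q i)
    have h4 := Real.sin_le_one (th q i)
    have h5 := Real.sin_sq_add_cos_sq (th q i)
    have hself : Real.cos (th q i) * (1 - dl + dl * Real.cos (th q i)) +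
        Real.sin (th q i) * (1 - dl + dl * Real.sin (th q i)) =
        (1 - dl) * (Real.cos (th q i) + Real.sin (th q i)) + dl := by
      linear_combination dl * h5
    cases b with
    | none =>
      simp only [fn, hv, hself]
      rw [hdl]
      constructor
      · intro _; linarith
      · linarith
    | some j =>
      have g1 := c_pos q j
      have g2 := s_pos q j
      simp only [fn, hv, hself]
      have e : Real.cos (th q i) * (1 - dl + dl * Real.cos (th q j)) +
          Real.sin (th q i) * (1 - dl + dl * Real.sin (th q j)) =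
          (1 - dl) * (Real.cos (th q i) + Real.sin (th q i)) +
            dl * (Real.cos (th q i) * Real.cos (th q j) + Real.sin (th q i) * Real.sin (th q j)) := by
        ring
      rw [e]
      have hd0 : 0 < dl := by rw [hdl]; norm_num
      have hp1 := mul_pos h1 g1
      have hp2 := mul_pos h2 g2
      constructor
      · intro hne
        have hij : i ≠ j := fun h => hne (by rw [h])
        have hc := c_ne q hij
        have g5 := Real.sin_sq_add_cos_sq (th q j)
        have h6 : 0 < (Real.cos (th q i) - Real.cos (th q j)) ^ 2 := by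
          have := sub_ne_zero.2 hc
          positivity
        have h7 := sq_nonneg (Real.sin (th q i) - Real.sin (th q j))
        have h8 : Real.cos (th q i) * Real.cos (th q j) + Real.sin (th q i) * Real.sin (th q j) < 1 := by
          nlinarith
        have := mul_lt_mul_of_pos_left h8 hd0
        linarith
      · have a1 : 0 < (1 - dl) * (Real.cos (th q i) + Real.sin (th q i)) := by
          apply mul_pos _ (by linarith)
          rw [hdl]; norm_num
        have a2 : 0 < dl * (Real.cos (th q i) * Real.cos (th q j) + Real.sin (th q i) * Real.sin (th q j)) :=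
          mul_pos hd0 (by linarith)
        linarith

theorem sg_sq (s : Bool) : sg s * sg s = 1 := by cases s <;> simp [sg]

theorem vt_zero (q : ℕ) (a : Bool × Option (Fin q)) : vt q a 0 = sg a.1 * (hv q a.2).1 := rfl
theorem vt_one (q : ℕ) (a : Bool × Option (Fin q)) : vt q a 1 = sg a.1 * (hv q a.2).2 := rfl

/-- The vertices are in convex position. -/
theorem vt_indep (q : ℕ) : ConvexIndependent ℝ (vt q) := by
  intro S a ha
  by_contra hS
  obtain ⟨s, a⟩ := a
  set L : EuclideanSpace ℝ (Fin 2) → ℝ := fun x => sg s * ((fn q a).1 * x 0 + (fn q a).2 * x 1) with hL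
  have hconv : Convex ℝ {x : EuclideanSpace ℝ (Fin 2) | L x < L (vt q (s, a))} := by
    have hlin : IsLinearMap ℝ L := by
      refine ⟨fun x y => ?_, fun c x => ?_⟩
      · simp only [hL, PiLp.add_apply]; ring
      · simp only [hL, PiLp.smul_apply, smul_eq_mul]; ring
    exact convex_halfSpace_lt hlin _
  have hsub : vt q '' S ⊆ {x : EuclideanSpace ℝ (Fin 2) | L x < L (vt q (s, a))} := by
    rintro _ ⟨⟨s', b⟩, hb, rfl⟩
    have hne : (s', b) ≠ (s, a) := fun h => hS (h ▸ hb)
    have hk := key_ineq q a b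
    have e1 : L (vt q (s, a)) = (fn q a).1 * (hv q a).1 + (fn q a).2 * (hv q a).2 := by
      simp only [hL, vt_zero, vt_one]
      have := sg_sq s
      linear_combination ((fn q a).1 * (hv q a).1 + (fn q a).2 * (hv q a).2) * this
    have e2 : L (vt q (s', b)) = (sg s * sg s') * ((fn q a).1 * (hv q b).1 + (fn q a).2 * (hv q b).2) := by
      simp only [hL, vt_zero, vt_one]; ring
    show L (vt q (s', b)) < L (vt q (s, a))
    rw [e1, e2]
    by_cases hs : s' = s
    · subst hs
      have hab : a ≠ b := fun h => hne (by rw [h])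
      rw [sg_sq, one_mul]
      exact hk.1 hab
    · have : sg s * sg s' = -1 := by
        cases s <;> cases s' <;> simp_all [sg]
      rw [this, neg_one_mul]
      exact hk.2
  have h9 : L (vt q (s, a)) < L (vt q (s, a)) := convexHull_min hsub hconv ha
  exact lt_irrefl _ h9

/-- the hull -/
noncomputable def HH (q : ℕ) : Set (EuclideanSpace ℝ (Fin 2)) := convexHull ℝ (range (vt q))

theorem HH_convex (q : ℕ) : Convex ℝ (HH q) := convex_convexHull _ _

theorem vt_mem (q : ℕ) (a : Bool × Option (Fin q)) : vt q a ∈ HH q :=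
  subset_convexHull _ _ ⟨a, rfl⟩

theorem range_neg (q : ℕ) : -range (vt q) = range (vt q) := by
  have hn : ∀ a : Bool × Option (Fin q), -vt q a = vt q (!a.1, a.2) := by
    intro a
    unfold vt
    rw [← neg_smul]
    congr 1
    cases a.1 <;> simp [sg]
  ext x
  rw [Set.mem_neg]
  constructor
  · rintro ⟨a, ha⟩
    exact ⟨(!a.1, a.2), by rw [← hn, ha, neg_neg]⟩
  · rintro ⟨a, rfl⟩
    exact ⟨(!a.1, a.2), (hn a).symm⟩

theorem HH_neg (q : ℕ) : -HH q = HH q := by
  unfold HH
  rw [← convexHull_neg, range_neg]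

theorem comb {H : Set (EuclideanSpace ℝ (Fin 2))} (hH : Convex ℝ H) (hn : -H = H)
    {p r : EuclideanSpace ℝ (Fin 2)} (hp : p ∈ H) (hr : r ∈ H) {α β : ℝ} (h : |α| + |β| ≤ 1) :
    α • p + β • r ∈ H := by
  have hneg : ∀ x ∈ H, -x ∈ H := fun x hx => by
    rw [← hn, Set.mem_neg, neg_neg]; exact hx
  have h0 : (0 : EuclideanSpace ℝ (Fin 2)) ∈ H := by
    have := hH hp (hneg p hp) (a := 1/2) (b := 1/2) (by norm_num) (by norm_num) (by norm_num)
    simpa using this
  have habs : ∀ (x : EuclideanSpace ℝ (Fin 2)) (c : ℝ), x ∈ H → ∃ y ∈ H, c • x = |c| • y := by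
    intro x c hx
    rcases abs_cases c with ⟨e, -⟩ | ⟨e, -⟩
    · exact ⟨x, hx, by rw [e]⟩
    · exact ⟨-x, hneg x hx, by rw [e]; simp⟩
  obtain ⟨p', hp', e1⟩ := habs p α hp
  obtain ⟨r', hr', e2⟩ := habs r β hr
  rw [e1, e2]
  have h3 := hH.sum_mem (t := (Finset.univ : Finset (Fin 3))) (w := ![|α|, |β|, 1 - |α| - |β|])
    (z := ![p', r', 0]) (by
      intro i _
      fin_cases i
      · exact abs_nonneg _
      · exact abs_nonneg _
      · show 0 ≤ 1 - |α| - |β|
        linarith) (by simp [Fin.sum_univ_three]) (by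
      intro i _
      fin_cases i
      · exact hp'
      · exact hr'
      · exact h0)
  simpa [Fin.sum_univ_three] using h3

theorem sub_HH {q : ℕ} (hq : 0 < q) : {x : EuclideanSpace ℝ (Fin 2) | |x 0| < 1 - dl ∧ |x 1| < 1 - dl} ⊆ HH q := by
  have hdl : dl = 1 / 2000 := rfl
  let i : Fin q := ⟨0, hq⟩
  have h1 := c_pos q i
  have h2 := s_pos q i
  set c := Real.cos (th q i) with hc
  set s := Real.sin (th q i) with hs
  have hp := vt_mem q (true, some i)
  have hr := vt_mem q (true, none)
  have hX : (vt q (true, some i)) 0 = 1 - dl + dl * c := by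
    rw [vt_zero]; simp [sg, hv, hc]
  have hY : (vt q (true, some i)) 1 = 1 - dl + dl * s := by
    rw [vt_one]; simp [sg, hv, hs]
  have hr0 : (vt q (true, none)) 0 = 1 := by rw [vt_zero]; simp [sg, hv]
  have hr1 : (vt q (true, none)) 1 = -1 := by rw [vt_one]; simp [sg, hv]
  set X := 1 - dl + dl * c with hXd
  set Y := 1 - dl + dl * s with hYd
  have hsum : 0 < X + Y := by rw [hXd, hYd, hdl]; linarith
  -- the point (1-dl)(1,1)
  have hpt : (1 - dl) • emb (1, 1) ∈ HH q := by
    set lam := 2 * (1 - dl) / (X + Y) with hlam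
    set mu := (1 - dl) - lam * X with hmu
    have hlamS : lam * (X + Y) = 2 * (1 - dl) := by rw [hlam]; field_simp
    have e : (1 - dl) • emb (1, 1) = lam • vt q (true, some i) + mu • vt q (true, none) := by
      ext l
      fin_cases l
      · show (1 - dl) * 1 = lam * (vt q (true, some i)) 0 + mu * (vt q (true, none)) 0
        rw [hX, hr0, hmu]; ring
      · show (1 - dl) * 1 = lam * (vt q (true, some i)) 1 + mu * (vt q (true, none)) 1
        rw [hY, hr1, hmu]; linear_combination -hlamS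
    rw [e]
    apply comb (HH_convex q) (HH_neg q) hp hr
    have hd : (0:ℝ) < 1 - dl := by rw [hdl]; norm_num
    have hlam0 : 0 ≤ lam := by rw [hlam]; positivity
    rw [abs_of_nonneg hlam0]
    have hmu' : mu * (X + Y) = (1 - dl) * (dl * (s - c)) := by
      rw [hmu, sub_mul]
      have : lam * X * (X + Y) = 2 * (1 - dl) * X := by
        calc lam * X * (X + Y) = lam * (X + Y) * X := by ring
          _ = _ := by rw [hlamS]
      rw [this, hXd, hYd]; ring
    have h1lam : (1 - lam) * (X + Y) = dl * (c + s) := by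
      rw [sub_mul, hlamS, hXd, hYd]; ring
    have hmuabs : |mu| * (X + Y) ≤ (1 - lam) * (X + Y) := by
      rw [h1lam, ← abs_of_pos hsum, ← abs_mul, hmu', abs_mul, abs_mul, abs_of_pos hd,
        abs_of_pos (by rw [hdl]; norm_num : 0 < dl)]
      have h5 : |s - c| ≤ c + s := by rw [abs_le]; constructor <;> linarith
      have h6 : (1 - dl) ≤ 1 := by rw [hdl]; norm_num
      have h7 : 0 ≤ dl := by rw [hdl]; norm_num
      calc (1 - dl) * (dl * |s - c|) ≤ 1 * (dl * (c + s)) := by
            apply mul_le_mul h6 (mul_le_mul_of_nonneg_left h5 h7) (by positivity) zero_le_one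
        _ = dl * (c + s) := one_mul _
    have := le_of_mul_le_mul_right hmuabs hsum
    linarith
  have hpt2 : (1 - dl) • emb (1, -1) ∈ HH q := by
    have h3 := comb (HH_convex q) (HH_neg q) hr hr (α := 1 - dl) (β := 0)
      (by rw [hdl]; norm_num [abs_of_pos])
    have e : (1 - dl) • vt q (true, none) + (0:ℝ) • vt q (true, none) = (1 - dl) • emb (1, -1) := by
      rw [zero_smul, add_zero]
      congr 1
      ext l
      fin_cases l
      · exact hr0
      · exact hr1
    rwa [e] at h3
  rintro x ⟨hx0, hx1⟩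
  have hd : (0:ℝ) < 1 - dl := by rw [hdl]; norm_num
  have e : x = ((x 0 + x 1) / (2 * (1 - dl))) • ((1 - dl) • emb (1, 1)) +
      ((x 0 - x 1) / (2 * (1 - dl))) • ((1 - dl) • emb (1, -1)) := by
    ext l
    fin_cases l
    · show x 0 = ((x 0 + x 1) / (2 * (1 - dl))) * ((1 - dl) * 1) +
        ((x 0 - x 1) / (2 * (1 - dl))) * ((1 - dl) * 1)
      field_simp; ring
    · show x 1 = ((x 0 + x 1) / (2 * (1 - dl))) * ((1 - dl) * 1) +
        ((x 0 - x 1) / (2 * (1 - dl))) * ((1 - dl) * (-1))
      field_simp; ring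
  rw [e]
  apply comb (HH_convex q) (HH_neg q) hpt hpt2
  rw [abs_div, abs_div, abs_of_pos (by positivity : 0 < 2 * (1 - dl)), ← add_div,
    div_le_one (by positivity)]
  obtain ⟨a1, a2⟩ := abs_lt.1 hx0
  obtain ⟨a3, a4⟩ := abs_lt.1 hx1
  rcases abs_cases (x 0 + x 1) with ⟨e1, -⟩ | ⟨e1, -⟩ <;>
    rcases abs_cases (x 0 - x 1) with ⟨e2, -⟩ | ⟨e2, -⟩ <;> rw [e1, e2] <;> linarith

theorem HH_sub (q : ℕ) : HH q ⊆ {x : EuclideanSpace ℝ (Fin 2) | |x 0| ≤ 1 ∧ |x 1| ≤ 1} := by
  have hdl : dl = 1 / 2000 := rfl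
  have hconv : Convex ℝ {x : EuclideanSpace ℝ (Fin 2) | |x 0| ≤ 1 ∧ |x 1| ≤ 1} := by
    intro x hx y hy a b ha hb hab
    have key : ∀ u v : ℝ, |u| ≤ 1 → |v| ≤ 1 → |a * u + b * v| ≤ 1 := by
      intro u v hu hv
      calc |a * u + b * v| ≤ |a * u| + |b * v| := abs_add_le _ _
        _ = a * |u| + b * |v| := by rw [abs_mul, abs_mul, abs_of_nonneg ha, abs_of_nonneg hb]
        _ ≤ a * 1 + b * 1 := by gcongr
        _ = 1 := by rw [mul_one, mul_one, hab]
    exact ⟨key _ _ hx.1 hy.1, key _ _ hx.2 hy.2⟩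
  apply convexHull_min _ hconv
  rintro _ ⟨⟨s, a⟩, rfl⟩
  have hsg : |sg s| = 1 := by cases s <;> simp [sg]
  show |vt q (s, a) 0| ≤ 1 ∧ |vt q (s, a) 1| ≤ 1
  rw [vt_zero, vt_one, abs_mul, abs_mul, hsg, one_mul, one_mul]
  cases a with
  | none => simp [hv]
  | some i =>
    have h1 := c_pos q i
    have h2 := s_pos q i
    have h3 := Real.cos_le_one (th q i)
    have h4 := Real.sin_le_one (th q i)
    simp only [hv, hdl]
    constructor <;> rw [abs_le] <;> constructor <;> linarith

/-- the polygon -/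
noncomputable def PP (q : ℕ) : Set (EuclideanSpace ℝ (Fin 2)) := interior (HH q)

theorem sub_PP {q : ℕ} (hq : 0 < q) :
    {x : EuclideanSpace ℝ (Fin 2) | |x 0| < 1 - dl ∧ |x 1| < 1 - dl} ⊆ PP q :=
  interior_maximal (sub_HH hq) ((isOpen_lt (co_cont 0).abs continuous_const).inter
    (isOpen_lt (co_cont 1).abs continuous_const))

theorem PP_aniso {q : ℕ} (hq : 0 < q) : IsAniso (PP q) := by
  refine ⟨isOpen_interior, (HH_convex q).interior, ?_, ⟨0, sub_PP hq ?_⟩, ?_⟩
  · have h1 : Bornology.IsBounded (HH q) := by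
      unfold HH
      rw [isBounded_convexHull]
      exact (finite_range _).isBounded
    exact h1.subset interior_subset
  · have hdl : dl = 1 / 2000 := rfl
    show |(0:ℝ)| < 1 - dl ∧ |(0:ℝ)| < 1 - dl
    rw [hdl]; norm_num
  · intro x hx
    have h5 : Homeomorph.neg (EuclideanSpace ℝ (Fin 2)) ⁻¹' PP q = PP q := by
      unfold PP
      rw [(Homeomorph.neg _).preimage_interior]
      congr 1
      exact HH_neg q
    have h6 : -x ∈ Homeomorph.neg (EuclideanSpace ℝ (Fin 2)) ⁻¹' PP q := by
      show - -x ∈ PP q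
      rwa [neg_neg]
    rwa [h5] at h6

theorem PP_sub (q : ℕ) : PP q ⊆ (1 + dl) • sq := by
  have hdl : dl = 1 / 2000 := rfl
  intro x hx
  have h := HH_sub q (interior_subset hx)
  have h0 : (1 + dl) ≠ 0 := by rw [hdl]; norm_num
  rw [mem_smul_set_iff_inv_smul_mem₀ h0]
  have hinv : (0:ℝ) < (1 + dl)⁻¹ ∧ (1 + dl)⁻¹ < 1 := by rw [hdl]; norm_num
  show |(1 + dl)⁻¹ * x 0| < 1 ∧ |(1 + dl)⁻¹ * x 1| < 1
  rw [abs_mul, abs_mul, abs_of_pos hinv.1]
  constructor
  · calc (1 + dl)⁻¹ * |x 0| ≤ (1 + dl)⁻¹ * 1 := mul_le_mul_of_nonneg_left h.1 hinv.1.le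
      _ < 1 := by linarith [hinv.2]
  · calc (1 + dl)⁻¹ * |x 1| ≤ (1 + dl)⁻¹ * 1 := mul_le_mul_of_nonneg_left h.2 hinv.1.le
      _ < 1 := by linarith [hinv.2]

/-- Upper bound for the Cheeger constant of the disk. -/
theorem cheeger_sq_le : cheeger sq (ball 0 1) ≤ ENNReal.ofReal (96 / 13 / (2978 / 1000)) := by
  have hsub : Ea (12/13) ⊆ ball 0 1 := by
    rintro x ⟨-, -, h⟩
    rw [mem_ball_zero_iff, EuclideanSpace.norm_eq, Real.sqrt_lt' one_pos, Fin.sum_univ_two]
    simp only [Real.norm_eq_abs, sq_abs]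
    linarith
  have harea := area_Ea
  have hpos : (0 : ℝ≥0∞) < ENNReal.ofReal (2978 / 1000) := ENNReal.ofReal_pos.2 (by norm_num)
  have h0 : volume (Ea (12/13)) ≠ 0 := (hpos.trans_le harea).ne'
  unfold cheeger
  refine (iInf_le _ (Ea (12/13))).trans ((iInf_le _ (Ea_open _).measurableSet).trans
    ((iInf_le _ hsub).trans ((iInf_le _ h0).trans ?_)))
  refine (ENNReal.div_le_div (per_sq_le (by norm_num)) harea).trans ?_
  rw [← ENNReal.ofReal_div_of_pos (by norm_num)]
  apply ENNReal.ofReal_le_ofReal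
  norm_num

end Pool.Agent.V1186.Chee
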